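import Pool.Agent.Helper65.HF.StC

/-!
Project HF (MP_b56c98_ag), module ALP.
-/

namespace Pool.Agent.Helper49.HF

open Pool.Agent.Helper65.HF

theorem getLastD_le {a : ℕ} {τ τ' : List ℕ} (h : LeL τ τ') :
    τ.getLastD a ≤ τ'.getLastD a := by
  induction h generalizing a with
  | nil => exact le_rfl
  | cons hab _ ih =>
    rename_i x y l l' hll
    rw [List.getLastD_cons, List.getLastD_cons]
    cases l with
    | nil =>
      cases hll
      simpa using hab
    | cons z l =>
      cases l' with
      | nil => cases hll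
      | cons z' l' =>
        have := ih (a := x)
        rw [List.getLastD_cons, List.getLastD_cons] at this ⊢
        exact this

theorem hALP : sALP := by
  classical
  intro hF hS M ν i t u a D hD
  set T := tl M ν i t a with hT
  let n : List ℕ → ℕ := fun τ => (tl M ν (i + t) u (τ.getLastD a)).card
  have h1 : (tl M ν i (t + u) a).card = ∑ τ ∈ T, n τ := by
    have := hS M ν i t u a (fun _ => True)
    rw [num_true] at this
    rw [this]
    refine Finset.sum_congr rfl fun τ _ => ?_
    rw [num_true]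
  have h2 : num (tl M ν i (t + u) a) (fun v => D (v.take t)) =
      ∑ τ ∈ T, (if D τ then n τ else 0) := by
    rw [hS M ν i t u a (fun v => D (v.take t))]
    refine Finset.sum_congr rfl fun τ hτ => ?_
    have hl : τ.length = t := (mem_tl.1 hτ).1.1
    have e : ∀ σ : List ℕ, (τ ++ σ).take t = τ := by
      intro σ
      rw [← hl]; simp
    simp only [e]
    by_cases h : D τ
    · rw [if_pos h]
      simp only [h]
      exact num_true _
    · rw [if_neg h]
      simp only [h, num]
      simp
  have hmono : ∀ τ τ' : List ℕ, LeL τ τ' → n τ' ≤ n τ := by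
    intro τ τ' h
    refine Finset.card_le_card ?_
    intro σ hσ
    rw [mem_tl] at hσ ⊢
    exact ⟨hσ.1, fun x hx => (getLastD_le h).trans (hσ.2.1 x hx), hσ.2.2⟩
  set C : ℕ := ∑ τ ∈ T, n τ with hC
  have hnC : ∀ τ ∈ T, n τ ≤ C := fun τ hτ =>
    Finset.single_le_sum (f := n) (fun _ _ => Nat.zero_le _) hτ
  have key := hF M ν i t a (fun τ => if D τ then 0 else 1) (fun τ => (C : ℝ) - n τ)
    (fun τ _ => by split_ifs <;> norm_num)
    (fun τ hτ => by
      have : (n τ : ℝ) ≤ C := by exact_mod_cast hnC τ hτ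
      linarith)
    (fun τ hτ τ' hτ' hl => by
      by_cases h : D τ'
      · have := hD τ hτ τ' hτ' hl h
        rw [if_pos h, if_pos this]
      · rw [if_neg h]
        split_ifs <;> norm_num)
    (fun τ _ τ' _ hl => by
      have : (n τ' : ℝ) ≤ n τ := by exact_mod_cast hmono τ τ' hl
      linarith)
  rw [← hT] at key
  have q1 : (∑ τ ∈ T, (if D τ then (0 : ℝ) else 1)) = (T.card : ℝ) - num T D := by
    have e := num_add_not T D
    have e2 := num_eq_sum T (fun l => ¬ D l)
    have e3 : (∑ τ ∈ T, (if D τ then (0 : ℝ) else 1)) = ((num T (fun l => ¬ D l) : ℕ) : ℝ) := by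
      rw [e2]; push_cast
      refine Finset.sum_congr rfl fun τ _ => ?_
      by_cases h : D τ <;> simp [h]
    rw [e3, ← e]; push_cast; ring
  have q2 : (∑ τ ∈ T, ((C : ℝ) - n τ)) = T.card * (C : ℝ) - C := by
    rw [Finset.sum_sub_distrib, Finset.sum_const, nsmul_eq_mul, hC]; push_cast; rfl
  have q3 : (∑ τ ∈ T, (if D τ then (0 : ℝ) else 1) * ((C : ℝ) - n τ)) =
      C * ((T.card : ℝ) - num T D) - (C - ((∑ τ ∈ T, (if D τ then n τ else 0) : ℕ) : ℝ)) := by
    have e : ∀ τ, (if D τ then (0 : ℝ) else 1) * ((C : ℝ) - n τ) =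
        C * (if D τ then (0 : ℝ) else 1) - (n τ - (if D τ then (n τ : ℝ) else 0)) := by
      intro τ
      by_cases h : D τ <;> simp [h]
    simp only [e]
    rw [Finset.sum_sub_distrib, ← Finset.mul_sum, q1, Finset.sum_sub_distrib]
    congr 1
    rw [hC]
    push_cast
    rfl
  rw [q1, q2, q3] at key
  rw [h1, h2]
  have : ((num T D * C : ℕ) : ℝ) ≤ (((∑ τ ∈ T, (if D τ then n τ else 0)) * T.card : ℕ) : ℝ) := by
    rw [Nat.cast_mul, Nat.cast_mul]
    nlinarith
  exact_mod_cast this

end Pool.Agent.Helper49.HF
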