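import Pool.Agent.Helper65.HF.StA

/-!
Project HF (MP_b56c98_ag), module LSM.
-/

namespace Pool.Agent.Helper49.HF

open Pool.Agent.Helper65.HF

theorem mon_apply (N : ℕ) (l : List ℕ) (u : Fin N) : mon N l u = l.count (u : ℕ) := by
  unfold mon
  rfl

theorem lsm2 (N : ℕ) (l : List ℕ) (b : Fin N) :
    mon N (l ++ [(b : ℕ)]) = mon N l + Finsupp.single b 1 := by
  classical
  ext u
  rw [Finsupp.add_apply, mon_apply, mon_apply, List.count_append, List.count_singleton,
    Finsupp.single_apply]
  congr 1
  by_cases h : b = u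
  · subst h; simp
  · have h2 : ((b : ℕ) == (u : ℕ)) = false := by
      simp only [beq_eq_false_iff_ne, ne_eq]
      exact fun e => h (Fin.ext e)
    rw [h2, if_neg h]; rfl

theorem lsm3 (N : ℕ) (l l' : List ℕ) (x y : Fin N) :
    mon N (l ++ (x : ℕ) :: l') =
      mon N (l ++ (y : ℕ) :: l') - Finsupp.single y 1 + Finsupp.single x 1 ∧
      1 ≤ mon N (l ++ (y : ℕ) :: l') y := by
  classical
  have key : ∀ z u : Fin N, mon N (l ++ (z : ℕ) :: l') u =
      l.count (u : ℕ) + l'.count (u : ℕ) + (if z = u then 1 else 0) := by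
    intro z u
    rw [mon_apply, List.count_append, List.count_cons]
    have : (if ((z : ℕ) == (u : ℕ)) = true then 1 else 0) = (if z = u then 1 else 0) := by
      by_cases h : z = u
      · subst h; simp
      · have h2 : ¬ ((z : ℕ) = (u : ℕ)) := fun e => h (Fin.ext e)
        simp [h, h2]
    rw [this]; ring
  constructor
  · ext u
    rw [Finsupp.add_apply, Finsupp.tsub_apply, key, key, Finsupp.single_apply,
      Finsupp.single_apply]
    split_ifs <;> omega
  · rw [key]; simp

theorem lsm4 (N : ℕ) (l : List ℕ) (h : ∀ x ∈ l, x < N) : (mon N l).degree = l.length := by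
  classical
  rw [Finsupp.degree_eq_sum]
  simp only [mon_apply]
  induction l with
  | nil => simp
  | cons a l ih =>
    have h1 : ∀ x ∈ l, x < N := fun x hx => h x (List.mem_cons_of_mem _ hx)
    have ha : a < N := h a List.mem_cons_self
    simp only [List.count_cons]
    rw [Finset.sum_add_distrib, ih h1, List.length_cons]
    congr 1
    rw [Finset.sum_eq_single (⟨a, ha⟩ : Fin N)]
    · simp
    · intro b _ hb
      have : ¬ (a = (b : ℕ)) := fun e => hb (Fin.ext e.symm)
      simp [this]
    · simp

theorem lsm1 (N c : ℕ) (Q : (Fin N →₀ ℕ) → Prop) :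
    num (srt N c) (fun l => Q (mon N l)) = Nat.card {m : Fin N →₀ ℕ // m.degree = c ∧ Q m} := by
  classical
  unfold num
  have e : ((srt N c).filter (fun l => Q (mon N l))).card =
      Nat.card {l // l ∈ (srt N c).filter (fun l => Q (mon N l))} := by
    rw [Nat.card_eq_fintype_card, Fintype.card_coe]
  have e' : ∀ (inst : DecidablePred fun l => Q (mon N l)),
      (@Finset.filter _ (fun l => Q (mon N l)) inst (srt N c)).card =
      ((srt N c).filter (fun l => Q (mon N l))).card := by
    intro inst
    congr 1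
  rw [e', e]
  have hm : ∀ l : {l // l ∈ (srt N c).filter (fun l => Q (mon N l))},
      (mon N l.1).degree = c ∧ Q (mon N l.1) := by
    rintro ⟨l, hl⟩
    rw [Finset.mem_filter, mem_srt] at hl
    exact ⟨(lsm4 N l hl.1.2.2).trans hl.1.1, hl.2⟩
  refine Nat.card_eq_of_bijective (fun l => ⟨mon N l.1, hm l⟩) ⟨?_, ?_⟩
  · rintro ⟨l, hl⟩ ⟨l', hl'⟩ h
    have h1 : mon N l = mon N l' := congrArg Subtype.val h
    rw [Finset.mem_filter, mem_srt] at hl hl'
    have hp : l.Perm l' := by
      rw [List.perm_iff_count]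
      intro a
      by_cases ha : a < N
      · have := congrArg (fun m => m (⟨a, ha⟩ : Fin N)) h1
        simpa only [mon_apply] using this
      · rw [List.count_eq_zero_of_not_mem (fun hx => ha (hl.1.2.2 a hx)),
          List.count_eq_zero_of_not_mem (fun hx => ha (hl'.1.2.2 a hx))]
    exact Subtype.ext (hp.eq_of_pairwise' hl.1.2.1 hl'.1.2.1)
  · rintro ⟨m, hm1, hm2⟩
    set s : Multiset ℕ := (Finsupp.toMultiset m).map (fun u : Fin N => (u : ℕ)) with hs
    set l := s.sort (· ≤ ·) with hl
    have hlt : ∀ x ∈ l, x < N := by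
      intro x hx
      rw [hl, Multiset.mem_sort, hs, Multiset.mem_map] at hx
      obtain ⟨u, _, rfl⟩ := hx
      exact u.2
    have hmon : mon N l = m := by
      ext u
      rw [mon_apply, ← Multiset.coe_count, hl, Multiset.sort_eq, hs,
        Multiset.count_map_eq_count' _ _ Fin.val_injective, Finsupp.count_toMultiset]
    refine ⟨⟨l, ?_⟩, ?_⟩
    · rw [Finset.mem_filter, mem_srt]
      refine ⟨⟨?_, ?_, hlt⟩, by rw [hmon]; exact hm2⟩
      · rw [← lsm4 N l hlt, hmon, hm1]
      · exact Multiset.pairwise_sort _ _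
    · exact Subtype.ext hmon

theorem hLSM : sLSM := ⟨lsm1, lsm2, lsm3, lsm4⟩

end Pool.Agent.Helper49.HF
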