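import Pool.Agent.Helper65.HF.StC

/-!
Project HF (MP_b56c98_ag), module OML.
-/

namespace Pool.Agent.Helper49.HF

open Pool.Agent.Helper65.HF

theorem hOML : sOML := by
  classical
  intro hE M n c ν St hExt hnil hcn
  unfold num
  refine Finset.card_le_card ?_
  intro τ hτ
  rw [Finset.mem_filter]
  refine ⟨mem_srt.2 (mem_tl.1 hτ).1, ?_⟩
  have h0 : ([] : List ℕ) ∈ srt M 0 := mem_srt.2 ⟨rfl, List.Pairwise.nil, by simp⟩
  have := hE M n ν St hExt 0 c (by omega) [] h0 hnil τ (by simpa using hτ)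
  simpa using this

end Pool.Agent.Helper49.HF
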